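import Pool.Agent.SPT.T3E

set_option autoImplicit false

open Filter

namespace Pool.Agent.Results.MP_b8a134_nt.PerturbedSieveGaps

/-- The integers `n ≥ 2` which avoid the residue class `c p` modulo `p` for every prime `p ≤ √n`. For
`c = 0` this is the set of the primes. -/
def Sifted (c : ℕ → ℕ) : Set ℕ :=
  {n | 2 ≤ n ∧ ∀ p : ℕ, p.Prime → p ^ 2 ≤ n → ¬ n ≡ c p [MOD p]}

open Classical in
/-- For all real `lam < 2` and `ε > 0` there are residue classes `c p` modulo the primes `p` such that the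
sum of `1 / p` over the primes `p` with `c p ≢ 0 (mod p)` is less than `ε`, and for arbitrarily large real
`x` the open interval `(x, x + lam √x)` contains no element of `Sifted c`. -/
theorem result (lam ε : ℝ) (hlam : lam < 2) (hε : 0 < ε) : ∃ c : ℕ → ℕ,
    Summable (fun p : ℕ => if p.Prime ∧ ¬ p ∣ c p then 1 / (p : ℝ) else 0) ∧
    ∑' p : ℕ, (if p.Prime ∧ ¬ p ∣ c p then 1 / (p : ℝ) else 0) < ε ∧
    ∃ᶠ x : ℝ in atTop, ∀ n ∈ Sifted c, ¬ (x < n ∧ (n : ℝ) < x + lam * √x) := by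
  obtain ⟨c, h1, h2, h3⟩ := Pool.Agent.SPT.T3.main lam ε hlam hε
  refine ⟨c, h1.congr fun p => ?_, lt_of_le_of_lt (le_of_eq ?_) h2, h3.mono ?_⟩
  · congr
  · congr 1
  · rintro x hx n ⟨-, hn⟩ ⟨h4, h5⟩
    obtain ⟨p, hp, hpn, hmod⟩ := hx n h4 h5
    exact hn p hp hpn hmod

end Pool.Agent.Results.MP_b8a134_nt.PerturbedSieveGaps
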