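import Pool.Agent.SPT.T2Fin

set_option autoImplicit false

open Filter MeasureTheory ProbabilityTheory

namespace Pool.Agent.Results.MP_b8a134_nt.RandomShiftSqrtIntervals

/-- The sieve of Eratosthenes with shifted classes: the integers `n ≥ 2` such that for every prime
`p ≤ √n` the class `1` modulo `p` is avoided if `p` is odd and belongs to `F`, and the class `0` modulo
`p` is avoided otherwise. For `F = ∅` this is the set of the primes. -/
def ShiftedSieve (F : Set ℕ) : Set ℕ :=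
  {n | 2 ≤ n ∧ ∀ p : ℕ, p.Prime → p ^ 2 ≤ n →
    ((p ∈ F ∧ p ≠ 2) → ¬ p ∣ n - 1) ∧ (¬ (p ∈ F ∧ p ≠ 2) → ¬ p ∣ n)}

open Classical in
/-- There are `δ, C, η > 0` such that: if the events `p ∈ F` are independent,
`C log p / p ≤ P(p ∈ F) ≤ η` for all large primes `p` and `∑ P(p ∈ F) / p < ∞`, then almost surely for
all large real `x` the shifted sieve has an element in the open interval `(x, x + x^(1/2 - δ))`. -/
theorem result : ∃ (δ C η : ℝ), 0 < δ ∧ 0 < C ∧ 0 < η ∧
    ∀ {Ω : Type*} [MeasurableSpace Ω] (μ : Measure Ω) [IsProbabilityMeasure μ]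
    (E : ℕ → Set Ω), (∀ p, MeasurableSet (E p)) → iIndepSet E μ →
    (∀ᶠ p : ℕ in atTop, p.Prime → C * Real.log p / p ≤ μ.real (E p) ∧ μ.real (E p) ≤ η) →
    Summable (fun p : ℕ => if p.Prime then μ.real (E p) / p else 0) →
    ∀ᵐ ω ∂μ, ∀ᶠ x : ℝ in atTop, ∃ n : ℕ, n ∈ ShiftedSieve {p | ω ∈ E p} ∧ x < n ∧
      (n : ℝ) < x + x ^ (1 / 2 - δ) :=
  Pool.Agent.SPT.t2_main

end Pool.Agent.Results.MP_b8a134_nt.RandomShiftSqrtIntervals
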