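import Pool.Agent.PTL.Fin

/-!
# MP_b8a134_nt: a prime, or a prime times a prime from a fixed lacunary set, in intervals shorter than `√x`

There are a set `E` of primes with at most `C` elements in each dyadic interval `[y, 2y]`, a finite set `F`
and `δ > 0`, `x0` such that for every real `x ≥ 117` the open interval `(x, x + x^(1/2 - δ))` contains
`n = m q`, `q` prime, `m = 1` or `m ∈ E` or `m ∈ F`; for `x ≥ x0`, `m = 1` or `m ∈ E`, and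
`m ≤ x^(1/2 - δ)`.
-/

set_option autoImplicit false

namespace Pool.Agent.Results.MP_b8a134_nt.SchinzelLacunaryFactor

theorem result : ∃ (E : Set ℕ) (F : Finset ℕ) (C : ℕ) (δ x0 : ℝ), 0 < δ ∧
    (∀ p ∈ E, p.Prime) ∧
    (∀ y : ℝ, 1 ≤ y → {p : ℕ | p ∈ E ∧ y ≤ p ∧ (p : ℝ) ≤ 2 * y}.ncard ≤ C) ∧
    ∀ x : ℝ, 117 ≤ x → ∃ n m q : ℕ, x < n ∧ (n : ℝ) < x + x ^ (1 / 2 - δ) ∧
      n = m * q ∧ q.Prime ∧ (m = 1 ∨ m ∈ E ∨ m ∈ F) ∧
      (x0 ≤ x → (m = 1 ∨ m ∈ E) ∧ (m : ℝ) ≤ x ^ (1 / 2 - δ)) :=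
  Pool.Agent.PTL.main2

end Pool.Agent.Results.MP_b8a134_nt.SchinzelLacunaryFactor
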