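import Pool.Agent.Helper7.PTX.Fin

/-!
# MP_b8a134_nt: the sieve of Eratosthenes in intervals shorter than `√x`, with other classes at a lacunary set

There are a set `E` of primes with at most `C` elements in each dyadic interval `[y, 2y]` and `δ, κ > 0` such that
for every `K` there are `z`, `x0` with: for every family of reduced residue classes (`A r` modulo `r`), at most
`K y^κ` of them with moduli in `[y, 2y]` for every integer `y ≥ 1`, and every real `x ≥ x0`, the open interval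
`(x, x + x^(1/2 - δ))` contains an integer `n` which has no prime factor `p` with `p² ≤ n`, except possibly primes
`p ∈ E`, `p ≥ z`, and which is in none of the classes with modulus in `[z, n]`.
-/

set_option autoImplicit false

namespace Pool.Agent.Results.MP_b8a134_nt.ThinSieveClasses

theorem result : ∃ (E : Set ℕ) (δ κ : ℝ) (C : ℕ), 0 < δ ∧ 0 < κ ∧ (∀ p ∈ E, p.Prime) ∧
    (∀ y : ℕ, 1 ≤ y → {p : ℕ | p ∈ E ∧ y ≤ p ∧ p ≤ 2 * y}.ncard ≤ C) ∧
    ∀ K : ℕ, ∃ (z : ℕ) (x0 : ℝ), ∀ A : ℕ → Finset ℕ, (∀ r, ∀ a ∈ A r, Nat.Coprime a r) →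
    (∀ y : ℕ, 1 ≤ y → ∑ r ∈ Finset.Icc y (2 * y), ((A r).card : ℝ) ≤ K * (y : ℝ) ^ κ) →
    ∀ x : ℝ, x0 ≤ x → ∃ n : ℕ, x < n ∧ (n : ℝ) < x + x ^ (1 / 2 - δ) ∧
      (∀ p : ℕ, p.Prime → p ^ 2 ≤ n → p ∣ n → p ∈ E ∧ z ≤ p) ∧
      ∀ r : ℕ, z ≤ r → r ≤ n → ∀ a ∈ A r, ¬ n ≡ a [MOD r] :=
  Pool.Agent.Helper7.PTX.main

end Pool.Agent.Results.MP_b8a134_nt.ThinSieveClasses
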